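import Pool.Agent.Lib.lead.CXGraph

namespace Pool.Agent.H.MP_56c280_lc

variable {V : Type}

/-- `x` lies in the closed neighbourhood of `v` -/
def InN (G : SimpleGraph V) (v x : V) : Prop := x = v ∨ G.Adj v x

/-- with the set `S` chosen so far, `v` is a legal move: `N[v]` is not inside the union of the `N[s]`, `s ∈ S` -/
def Legal (G : SimpleGraph V) (S : Set V) (v : V) : Prop := ∃ x, InN G v x ∧ ¬ ∃ s ∈ S, InN G s x

/-- misere play: the player to move, with `S` chosen so far, has a winning strategy -/
inductive Wins (G : SimpleGraph V) : Set V → Prop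
  | stop (S : Set V) : (∀ v, ¬ Legal G S v) → Wins G S
  | step (S : Set V) (v : V) : Legal G S v → (∃ x, Legal G (insert v S) x) →
      (∀ x, Legal G (insert v S) x → Wins G (insert x (insert v S))) → Wins G S

open Pool.Agent.Lib.CX in
/-- the input graph is a path or a cycle -/
def PathOrCycle (a : Gr) : Prop :=
  Nonempty (a.G ≃g SimpleGraph.pathGraph a.n) ∨ 3 ≤ a.n ∧ Nonempty (a.G ≃g SimpleGraph.cycleGraph a.n)

end Pool.Agent.H.MP_56c280_lc
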