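import Pool.Agent.H.MP_56c280_lc.Heap

namespace Pool.Agent.H.MP_56c280_lc

def T (s : Multiset ℕ) : ℕ := (s.map w).sum
def M (s : Multiset ℕ) : ℕ := (s.map u).sup
def IsP (s : Multiset ℕ) : Prop := Pf (T s) (M s) s.sum
def HM (s s' : Multiset ℕ) : Prop := ∃ h r a c, s = h ::ₘ r ∧ s' = a ::ₘ c ::ₘ r ∧ Mv h a c

theorem T_cons (h : ℕ) (r : Multiset ℕ) : T (h ::ₘ r) = w h + T r := by simp [T]
theorem M_cons (h : ℕ) (r : Multiset ℕ) : M (h ::ₘ r) = max (u h) (M r) := by simp [M]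

theorem ok (s : Multiset ℕ) : Ok (T s) (M s) := by
  induction s using Multiset.induction_on with
  | empty => simp [Ok, T, M]
  | cons h r ih =>
    rw [T_cons, M_cons]
    have := w_spec h; have := u_spec h
    unfold Ok at *
    omega

theorem IsP.move {s s' : Multiset ℕ} (hp : IsP s) (hm : HM s s') : ¬ IsP s' := by
  obtain ⟨h, r, a, c, rfl, rfl, hm⟩ := hm
  unfold IsP at *
  simp only [T_cons, M_cons, Multiset.sum_cons] at *
  exact arith_a (ok r) hm hp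

theorem ex_odd {s : Multiset ℕ} (h : s.sum % 2 = 1) : ∃ g ∈ s, g % 2 = 1 := by
  induction s using Multiset.induction_on with
  | empty => simp at h
  | cons a r ih =>
    rw [Multiset.sum_cons] at h
    by_cases ha : a % 2 = 1
    · exact ⟨a, by simp, ha⟩
    · obtain ⟨g, hg, h1⟩ := ih (by omega)
      exact ⟨g, by simp [hg], h1⟩

theorem ex_pos {s : Multiset ℕ} (h : 0 < T s) : ∃ g ∈ s, 0 < w g := by
  induction s using Multiset.induction_on with
  | empty => simp [T] at h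
  | cons a r ih =>
    rw [T_cons] at h
    by_cases ha : 0 < w a
    · exact ⟨a, by simp, ha⟩
    · obtain ⟨g, hg, h1⟩ := ih (by omega)
      exact ⟨g, by simp [hg], h1⟩

theorem ex_nz {s : Multiset ℕ} (h : 0 < s.sum) : ∃ g ∈ s, 0 < g := by
  induction s using Multiset.induction_on with
  | empty => simp at h
  | cons a r ih =>
    rw [Multiset.sum_cons] at h
    by_cases ha : 0 < a
    · exact ⟨a, by simp, ha⟩
    · obtain ⟨g, hg, h1⟩ := ih (by omega)
      exact ⟨g, by simp [hg], h1⟩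

theorem ex_max {s : Multiset ℕ} (h : 0 < M s) : ∃ g ∈ s, u g = M s := by
  induction s using Multiset.induction_on with
  | empty => simp [M] at h
  | cons a r ih =>
    rw [M_cons] at h ⊢
    by_cases ha : M r ≤ u a
    · exact ⟨a, by simp, by omega⟩
    · obtain ⟨g, hg, h1⟩ := ih (by omega)
      exact ⟨g, by simp [hg], by omega⟩

def Good (g t m σ : ℕ) : Prop := ∃ a c, Mv g a c ∧ Pf (w a + (w c + t)) (max (u a) (max (u c) m)) (a + (c + σ))

theorem pick {g : ℕ} {r : Multiset ℕ} (h : Good g (T r) (M r) r.sum) : ∃ s', HM (g ::ₘ r) s' ∧ IsP s' := by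
  obtain ⟨a, c, h1, h2⟩ := h
  refine ⟨a ::ₘ c ::ₘ r, ⟨g, r, a, c, rfl, rfl, h1⟩, ?_⟩
  unfold IsP
  simpa only [T_cons, M_cons, Multiset.sum_cons] using h2

theorem w0 : w 0 = 0 := rfl
theorem u0 : u 0 = 0 := rfl

theorem good_of (g t m σ k : ℕ) (hk : 1 ≤ k ∧ k ≤ 3 ∧ k ≤ g)
    (h : ∀ wa ua, ((g - k < 4 ∧ wa = 2 * ((g - k) / 2)) ∨ (4 ≤ g - k ∧ wa + 4 = 2 * ((g - k) / 2))) →
      ((g - k < 8 ∧ ua = 0) ∨ (8 ≤ g - k ∧ (g - k) % 2 = 0 ∧ ua + 4 = 2 * (g - k)) ∨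
      (8 ≤ g - k ∧ (g - k) % 2 = 1 ∧ ua + 10 = 2 * (g - k))) → Pf (wa + t) (max ua m) (g - k + σ)) : Good g t m σ := by
  refine ⟨g - k, 0, by unfold Mv; omega, ?_⟩
  have := h _ _ (w_spec (g - k)) (u_spec (g - k))
  simpa [w0, u0] using this

theorem caseT0 {g t m σ : ℕ} (hr : Ok t m) (h1 : 0 < g) (ht : w g + t = 0) (hb : (g + σ) % 2 = 0) : Good g t m σ := by
  unfold Ok at hr
  have h2 := w_spec g
  by_cases h4 : g = 4
  · exact good_of _ _ _ _ 3 (by omega) fun wa ua h5 h6 => by unfold Pf; omega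
  · exact good_of _ _ _ _ 1 (by omega) fun wa ua h5 h6 => by unfold Pf; omega

theorem caseM0a {g t σ : ℕ} (h1 : g % 2 = 1) (hu : u g = 0) (ht : 0 < w g + t) (hb : (g + σ) % 2 = 1)
    (h4 : (w g + t) % 4 = 0) : Good g t 0 σ := by
  have h2 := w_spec g; have h3 := u_spec g
  exact good_of _ _ _ _ 1 (by omega) fun wa ua h5 h6 => by unfold Pf; omega

theorem caseM0b {g t σ : ℕ} (h1 : 0 < w g) (hu : u g = 0) (h4 : (w g + t) % 4 = 2) : Good g t 0 σ := by
  have h2 := w_spec g; have h3 := u_spec g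
  have hg : g = 2 ∨ g = 3 ∨ g = 6 ∨ g = 7 := by omega
  have hw : w g = 2 := by omega
  clear h2 h3
  by_cases h7 : ((g + σ) % 2 = 0 ↔ t = 0)
  · by_cases h8 : g % 2 = 0
    · exact good_of _ _ _ _ 1 (by omega) fun wa ua h5 h6 => by unfold Pf; omega
    · exact good_of _ _ _ _ 3 (by omega) fun wa ua h5 h6 => by unfold Pf; omega
  · exact good_of _ _ _ _ 2 (by omega) fun wa ua h5 h6 => by unfold Pf; omega

theorem caseOdd {g t m σ : ℕ} (hr : Ok t m) (h1 : g % 2 = 1) (ht : 0 < w g + t) (hu : u g < w g + t + 8)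
    (hm : m < w g + t + 8) (hb : (g + σ) % 2 = 1) (h4 : (w g + t) % 4 = 0)
    (he : ¬ (w g + t = 4 ∧ max (u g) m = 8)) : Good g t m σ := by
  unfold Ok at hr
  have h2 := w_spec g; have h3 := u_spec g
  by_cases h7 : u g = w g + t + 4
  · refine ⟨3, g - 6, by unfold Mv; omega, ?_⟩
    have h4 := w_spec (g - 6); have h5 := u_spec (g - 6)
    have h8 : w 3 = 2 := rfl
    have h9 : u 3 = 0 := rfl
    unfold Pf; omega
  · exact good_of _ _ _ _ 1 (by omega) fun wa ua h5 h6 => by unfold Pf; omega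

theorem other {L g k : ℕ} {r : Multiset ℕ} (hg : g ∈ r) (hk : 1 ≤ k ∧ k ≤ 3 ∧ k ≤ g)
    (h4 : w (g - k) + T r + w L + 8 ≤ u L + w g) (h5 : (w (g - k) + T r + w L - w g) % 4 = 2)
    (h6 : (L + r.sum + k) % 2 = 0) : ∃ s', HM (L ::ₘ r) s' ∧ IsP s' := by
  obtain ⟨r, rfl⟩ := Multiset.exists_cons_of_mem hg
  rw [Multiset.cons_swap]
  refine pick ⟨g - k, 0, by unfold Mv; omega, ?_⟩
  simp only [T_cons, M_cons, Multiset.sum_cons, w0, u0] at *
  unfold Pf; omega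

theorem smallw : w 1 = 0 ∧ w 2 = 2 ∧ w 3 = 2 ∧ w 4 = 0 ∧ w 5 = 0 ∧ w 7 = 2 ∧ w 0 = 0 ∧
    u 1 = 0 ∧ u 2 = 0 ∧ u 3 = 0 ∧ u 4 = 0 ∧ u 5 = 0 ∧ u 7 = 0 ∧ u 0 = 0 := by decide

theorem caseDom0 {L : ℕ} {r : Multiset ℕ} (hd : w L + T r + 8 ≤ u L) (hb0 : (L + r.sum) % 2 = 0)
    (h4 : (w L + T r) % 4 = 0) : ∃ s', HM (L ::ₘ r) s' ∧ IsP s' := by
  have hr := ok r
  unfold Ok at hr
  have h2 := w_spec L; have h3 := u_spec L
  by_cases h12 : w L + T r + 12 ≤ u L
  · exact pick (good_of _ _ _ _ 2 (by omega) fun wa ua h5 h6 => by unfold Pf; omega)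
  by_cases htr : T r = 0
  · have := smallw
    by_cases h8 : L = 8
    · exact pick ⟨5, 0, by unfold Mv; omega, by unfold Pf; omega⟩
    · exact pick ⟨5, 5, by unfold Mv; omega, by unfold Pf; omega⟩
  · obtain ⟨g, hg, h4⟩ := ex_pos (Nat.pos_of_ne_zero htr)
    have h5 := w_spec g; have h6 := w_spec (g - 2)
    exact other hg (k := 2) (by omega) (by omega) (by omega) (by omega)

theorem big {L : ℕ} (h : 0 < u L) : 8 ≤ L ∧ (L % 2 = 0 ∧ w L + 4 = L ∧ u L + 4 = 2 * L ∨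
    L % 2 = 1 ∧ w L + 5 = L ∧ u L + 10 = 2 * L) := by
  have h2 := w_spec L; have h3 := u_spec L
  omega

theorem caseDom1o {L t m σ : ℕ} (hr : Ok t m) (hd : w L + t + 8 ≤ u L) (hb0 : (L + σ) % 2 = 1) (hLo : L % 2 = 1) :
    Good L t m σ := by
  have hr := hr.1
  obtain ⟨h2, h3 | h3⟩ := big (L := L) (by omega)
  · omega
  by_cases h4 : (w L + t) % 4 = 2
  · exact good_of _ _ _ _ 1 (by omega) fun wa ua h5 h6 => Or.inr ⟨by omega, by omega, Or.inl (by omega)⟩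
  · exact good_of _ _ _ _ 3 (by omega) fun wa ua h5 h6 => Or.inr ⟨by omega, by omega, Or.inl (by omega)⟩

theorem caseDom1e {L t m σ : ℕ} (hr : Ok t m) (hd : w L + t + 8 ≤ u L) (hb0 : (L + σ) % 2 = 1) (hLo : L % 2 = 0)
    (h4 : (w L + t) % 4 = 0) : Good L t m σ := by
  unfold Ok at hr
  obtain ⟨h2, h3 | h3⟩ := big (L := L) (by omega)
  swap
  · omega
  by_cases h16 : w L + t + 16 ≤ u L
  · exact good_of _ _ _ _ 1 (by omega) fun wa ua h5 h6 => Or.inr ⟨by omega, by omega, Or.inl (by omega)⟩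
  by_cases htr : t = 0
  · have := smallw
    by_cases h8 : L = 8
    · exact ⟨2, 3, by unfold Mv; omega, Or.inr ⟨by omega, by omega, Or.inr (by omega)⟩⟩
    · exact ⟨2, 7, by unfold Mv; omega, Or.inr ⟨by omega, by omega, Or.inr (by omega)⟩⟩
  · exact good_of _ _ _ _ 3 (by omega) fun wa ua h5 h6 => Or.inr ⟨by omega, by omega, Or.inr (by omega)⟩

theorem caseDom1 {L : ℕ} {r : Multiset ℕ} (hd : w L + T r + 8 ≤ u L) (hb0 : (L + r.sum) % 2 = 1) :
    ∃ s', HM (L ::ₘ r) s' ∧ IsP s' := by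
  by_cases hLo : L % 2 = 1
  · exact pick (caseDom1o (ok r) hd hb0 hLo)
  have hr := (ok r).1
  obtain ⟨h2, h3 | h3⟩ := big (L := L) (by omega)
  swap
  · omega
  by_cases h4 : (w L + T r) % 4 = 2
  · obtain ⟨g, hg, h7⟩ := ex_odd (s := r) (by omega)
    have h5 := w_spec g; have h6 := w_spec (g - 1)
    exact other hg (k := 1) (by omega) (by omega) (by omega) (by omega)
  · exact pick (caseDom1e (ok r) hd hb0 (by omega) (by omega))

theorem caseNon0 {L t m σ : ℕ} (hr : Ok t m) (h0 : 0 < u L) (hm : m ≤ u L) (hd : u L < w L + t + 8)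
    (hb0 : (L + σ) % 2 = 0) (h4 : (w L + t) % 4 = 2 ∨ w L + t = 4 ∧ u L = 8) : Good L t m σ := by
  unfold Ok at hr
  have h2 := w_spec L; have h3 := u_spec L
  by_cases h9 : L = 9 ∧ t = 0
  · have := smallw
    exact ⟨5, 1, by unfold Mv; omega, by unfold Pf; omega⟩
  by_cases h11 : L = 11 ∧ t = 0
  · have := smallw
    exact ⟨4, 4, by unfold Mv; omega, by unfold Pf; omega⟩
  · exact good_of _ _ _ _ 2 (by omega) fun wa ua h5 h6 => by unfold Pf; omega

theorem caseNon1 {L t m σ : ℕ} (hr : Ok t m) (h0 : 0 < u L) (hm : m ≤ u L) (hd : u L < w L + t + 8)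
    (hb0 : (L + σ) % 2 = 1) (h4 : (w L + t) % 4 = 2 ∨ w L + t = 4 ∧ u L = 8) : Good L t m σ := by
  unfold Ok at hr
  by_cases h9 : L = 9 ∧ t = 0
  · have := smallw
    exact ⟨3, 3, by unfold Mv; omega, Or.inr ⟨by omega, by omega, Or.inr (by omega)⟩⟩
  obtain ⟨h2, h3 | h3⟩ := big h0
  · exact good_of _ _ _ _ 1 (by omega) fun wa ua h5 h6 => Or.inr ⟨by omega, by omega, Or.inr (by omega)⟩
  by_cases h6 : u L = w L + t + 6
  · exact good_of _ _ _ _ 1 (by omega) fun wa ua h5 h6 => Or.inr ⟨by omega, by omega, Or.inl (by omega)⟩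
  · exact good_of _ _ _ _ 3 (by omega) fun wa ua h5 h6 => Or.inr ⟨by omega, by omega, Or.inr (by omega)⟩

theorem move_P {s : Multiset ℕ} (h0 : 0 < s.sum) (hn : ¬ IsP s) : ∃ s', HM s s' ∧ IsP s' := by
  unfold IsP Pf at hn
  have hs := (ok s).1
  by_cases ht : T s = 0
  · obtain ⟨g, hg, h1⟩ := ex_nz h0
    obtain ⟨r, rfl⟩ := Multiset.exists_cons_of_mem hg
    simp only [T_cons, M_cons, Multiset.sum_cons] at *
    exact pick (caseT0 (ok r) h1 ht (by omega))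
  by_cases hm : M s = 0
  · by_cases hb : T s % 4 = 0
    · obtain ⟨g, hg, h1⟩ := ex_odd (s := s) (by omega)
      obtain ⟨r, rfl⟩ := Multiset.exists_cons_of_mem hg
      simp only [T_cons, M_cons, Multiset.sum_cons] at *
      refine pick ?_
      rw [show M r = 0 by omega]
      exact caseM0a h1 (by omega) (by omega) (by omega) hb
    obtain ⟨g, hg, h1⟩ := ex_pos (Nat.pos_of_ne_zero ht)
    obtain ⟨r, rfl⟩ := Multiset.exists_cons_of_mem hg
    simp only [T_cons, M_cons, Multiset.sum_cons] at *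
    refine pick ?_
    rw [show M r = 0 by omega]
    exact caseM0b h1 (by omega) (by omega)
  by_cases hb : M s < T s + 8 ∧ s.sum % 2 = 1 ∧ T s % 4 = 0 ∧ ¬ (T s = 4 ∧ M s = 8)
  · obtain ⟨g, hg, h1⟩ := ex_odd hb.2.1
    obtain ⟨r, rfl⟩ := Multiset.exists_cons_of_mem hg
    simp only [T_cons, M_cons, Multiset.sum_cons] at *
    exact pick (caseOdd (ok r) h1 (by omega) (by omega) (by omega) hb.2.1 hb.2.2.1 hb.2.2.2)
  obtain ⟨L, hL, h1⟩ := ex_max (Nat.pos_of_ne_zero hm)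
  obtain ⟨r, rfl⟩ := Multiset.exists_cons_of_mem hL
  rw [← h1] at hn hm hb
  simp only [T_cons, M_cons, Multiset.sum_cons] at *
  by_cases hd : w L + T r + 8 ≤ u L
  · by_cases hb0 : (L + r.sum) % 2 = 0
    · exact caseDom0 hd hb0 (by omega)
    · exact caseDom1 hd (by omega)
  by_cases hb0 : (L + r.sum) % 2 = 0
  · exact pick (caseNon0 (ok r) (by omega) (by omega) (by omega) hb0 (by omega))
  · exact pick (caseNon1 (ok r) (by omega) (by omega) (by omega) (by omega) (by omega))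

theorem HM.lt {s s' : Multiset ℕ} (h : HM s s') : s'.sum < s.sum := by
  obtain ⟨h, r, a, c, rfl, rfl, hm⟩ := h
  simp only [Multiset.sum_cons]
  unfold Mv at hm; omega

theorem IsP.pos {s : Multiset ℕ} (h : IsP s) : 0 < s.sum := by
  unfold IsP Pf at h
  by_contra h0
  have h1 : s.sum = 0 := by omega
  obtain ⟨g, hg, h2⟩ := ex_pos (s := s) (by omega)
  have := Multiset.sum_eq_zero_iff.1 h1 g hg
  subst this
  simp [w] at h2

theorem ex_HM {s : Multiset ℕ} (h : 0 < s.sum) : ∃ s', HM s s' := by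
  obtain ⟨g, hg, h1⟩ := ex_nz h
  obtain ⟨r, rfl⟩ := Multiset.exists_cons_of_mem hg
  exact ⟨_, g, r, g - 1, 0, rfl, rfl, by unfold Mv; omega⟩

end Pool.Agent.H.MP_56c280_lc
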