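import Pool.Agent.H.MP_56c280_lc.Defs
import Pool.Agent.H.MP_56c280_lc.Heap2

namespace Pool.Agent.H.MP_56c280_lc

variable {V : Type} {G : SimpleGraph V}

section bisim
variable (R : Set V → Multiset ℕ → Prop)
  (L1 : ∀ S s v, R S s → Legal G S v → ∃ s', HM s s' ∧ R (insert v S) s')
  (L2 : ∀ S s s', R S s → HM s s' → ∃ v, Legal G S v ∧ R (insert v S) s')
include L1 L2

theorem wins_of (n : ℕ) : ∀ S s, s.sum < n → R S s → ¬ IsP s → Wins G S := by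
  induction n with
  | zero => intro S s h; omega
  | succ n ih =>
    intro S s hs hR hn
    by_cases h0 : 0 < s.sum
    · obtain ⟨s1, hm, hp⟩ := move_P h0 hn
      obtain ⟨v, hv, hR1⟩ := L2 S s s1 hR hm
      refine Wins.step S v hv ?_ fun x hx => ?_
      · obtain ⟨s2, h2⟩ := ex_HM hp.pos
        obtain ⟨x, hx, -⟩ := L2 _ _ _ hR1 h2
        exact ⟨x, hx⟩
      · obtain ⟨s2, h2, hR2⟩ := L1 _ _ _ hR1 hx
        have := hm.lt; have := h2.lt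
        exact ih _ s2 (by omega) hR2 (hp.move h2)
    · refine Wins.stop S fun v hv => ?_
      obtain ⟨s1, hm, -⟩ := L1 _ _ _ hR hv
      have := hm.lt; omega

theorem isP_of {S : Set V} {s : Multiset ℕ} (hR : R S s) (h1 : ∃ x, Legal G S x)
    (h2 : ∀ x, Legal G S x → ∀ s', R (insert x S) s' → ¬ IsP s') : IsP s := by
  by_contra hn
  obtain ⟨x, hx⟩ := h1
  obtain ⟨s1, hm, -⟩ := L1 _ _ _ hR hx
  have := hm.lt
  obtain ⟨s2, hm2, hp⟩ := move_P (by omega) hn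
  obtain ⟨y, hy, hR2⟩ := L2 _ _ _ hR hm2
  exact h2 y hy s2 hR2 hp

theorem not_isP {S : Set V} (h : Wins G S) : ∀ s, R S s → ¬ IsP s := by
  induction h with
  | stop S h =>
    intro s hR hp
    obtain ⟨s1, h1⟩ := ex_HM hp.pos
    obtain ⟨x, hx, -⟩ := L2 _ _ _ hR h1
    exact h x hx
  | step S v hv h1 _ ih =>
    intro s hR hp
    obtain ⟨s1, hm, hR1⟩ := L1 _ _ _ hR hv
    exact hp.move hm (isP_of R L1 L2 hR1 h1 ih)

theorem win_move {S : Set V} {s : Multiset ℕ} {v : V} (hv : Legal G S v) (hR : R (insert v S) s) (hp : IsP s) :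
    Wins G S := by
  refine Wins.step S v hv ?_ fun x hx => ?_
  · obtain ⟨s2, h2⟩ := ex_HM hp.pos
    obtain ⟨x, hx, -⟩ := L2 _ _ _ hR h2
    exact ⟨x, hx⟩
  · obtain ⟨s2, h2, hR2⟩ := L1 _ _ _ hR hx
    exact wins_of R L1 L2 _ _ s2 (Nat.lt_succ_self _) hR2 (hp.move h2)

theorem isP_of_wins {S : Set V} {s : Multiset ℕ} (hR : R S s) (h1 : ∃ x, Legal G S x)
    (h2 : ∀ x, Legal G S x → Wins G (insert x S)) : IsP s :=
  isP_of R L1 L2 hR h1 fun x hx => not_isP R L1 L2 (h2 x hx)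

end bisim

def Sep (p q : ℕ × ℕ) : Prop := p.2 = 0 ∨ q.2 = 0 ∨ p.1 + p.2 + 2 ≤ q.1 ∨ q.1 + q.2 + 2 ≤ p.1

def Sepd (I : Multiset (ℕ × ℕ)) : Prop := ∀ p r, I = p ::ₘ r → ∀ q ∈ r, Sep p q

theorem sepd_cons {p : ℕ × ℕ} {r : Multiset (ℕ × ℕ)} : Sepd (p ::ₘ r) ↔ (∀ q ∈ r, Sep p q) ∧ Sepd r := by
  constructor
  · intro h
    refine ⟨h p r rfl, fun a t ht q hq => h a (p ::ₘ t) (by rw [ht, Multiset.cons_swap]) q (by simp [hq])⟩
  · rintro ⟨h1, h2⟩ a t ht q hq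
    rcases Multiset.cons_eq_cons.1 ht with ⟨rfl, rfl⟩ | ⟨-, cs, rfl, rfl⟩
    · exact h1 q hq
    · rcases Multiset.mem_cons.1 hq with rfl | hq
      · have := h1 a (by simp)
        unfold Sep at *; omega
      · exact h2 a cs rfl q hq

structure Line (G : SimpleGraph V) (e : ℕ → V) (m : ℕ) : Prop where
  adj : ∀ i < m, ∀ j < m, InN G (e j) (e i) ↔ i ≤ j + 1 ∧ j ≤ i + 1

structure RepI (G : SimpleGraph V) (e : ℕ → V) (m : ℕ) (S : Set V) (I : Multiset (ℕ × ℕ)) : Prop where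
  und : ∀ x, (¬ ∃ s ∈ S, InN G s x) ↔ ∃ p ∈ I, ∃ i, p.1 ≤ i ∧ i < p.1 + p.2 ∧ x = e i
  bd : ∀ p ∈ I, p.2 = 0 ∨ p.1 + p.2 ≤ m
  sep : Sepd I
  off : ∀ v, (∃ j < m, v = e j) ∨ ¬ Legal G S v

def Bd (m : ℕ) (I : Multiset (ℕ × ℕ)) : Prop := ∀ p ∈ I, p.2 = 0 ∨ 1 ≤ p.1 ∨ p.1 + p.2 < m

variable {e : ℕ → V} {m : ℕ}

theorem step_rep (hL : Line G e m) {S : Set V} {p : ℕ × ℕ} {r : Multiset (ℕ × ℕ)} (h : RepI G e m S (p ::ₘ r))
    {j : ℕ} (hj : j < m) (h1 : p.1 ≤ j + 1) (h2 : j ≤ p.1 + p.2) (h0 : 0 < p.2) :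
    Legal G S (e j) ∧ RepI G e m (insert (e j) S) ((p.1, j - 1 - p.1) ::ₘ (j + 2, p.1 + p.2 - (j + 2)) ::ₘ r) := by
  have hp := h.bd p (by simp)
  have hs := sepd_cons.1 h.sep
  refine ⟨?_, ?_, ?_, ?_, ?_⟩
  · refine ⟨e (min (max j p.1) (p.1 + p.2 - 1)), (hL.adj _ (by omega) _ hj).2 (by omega), ?_⟩
    exact (h.und _).2 ⟨p, by simp, _, by omega, by omega, rfl⟩
  · intro x
    have e1 : (¬ ∃ s ∈ insert (e j) S, InN G s x) ↔ ¬ InN G (e j) x ∧ ¬ ∃ s ∈ S, InN G s x := by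
      simp only [Set.mem_insert_iff, exists_eq_or_imp, not_or]
    rw [e1, h.und]
    simp only [Multiset.mem_cons, exists_eq_or_imp]
    constructor
    · rintro ⟨hn, ⟨i, h3, h4, rfl⟩ | h3⟩
      · rw [hL.adj _ (by omega) _ hj] at hn
        by_cases h5 : i < j
        · exact Or.inl ⟨i, h3, by omega, rfl⟩
        · exact Or.inr (Or.inl ⟨i, by omega, by omega, rfl⟩)
      · exact Or.inr (Or.inr h3)
    · rintro (⟨i, h3, h4, rfl⟩ | ⟨i, h3, h4, rfl⟩ | ⟨q, hq, i, h3, h4, rfl⟩)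
      · exact ⟨by rw [hL.adj _ (by omega) _ hj]; omega, Or.inl ⟨i, h3, by omega, rfl⟩⟩
      · exact ⟨by rw [hL.adj _ (by omega) _ hj]; omega, Or.inl ⟨i, by omega, by omega, rfl⟩⟩
      · have h5 := hs.1 q hq
        have h6 := h.bd q (by simp [hq])
        unfold Sep at h5
        exact ⟨by rw [hL.adj _ (by omega) _ hj]; omega, Or.inr ⟨q, hq, i, h3, h4, rfl⟩⟩
  · intro q hq
    simp only [Multiset.mem_cons] at hq
    rcases hq with rfl | rfl | hq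
    · dsimp only; omega
    · dsimp only; omega
    · exact h.bd q (by simp [hq])
  · rw [sepd_cons, sepd_cons]
    refine ⟨fun q hq => ?_, fun q hq => ?_, hs.2⟩
    · rcases Multiset.mem_cons.1 hq with rfl | hq
      · unfold Sep; dsimp only; omega
      · have := hs.1 q hq
        unfold Sep at *; dsimp only; omega
    · have := hs.1 q hq
      unfold Sep at *; dsimp only; omega
  · intro v
    refine (h.off v).imp_right fun hv ⟨x, h3, h4⟩ => hv ⟨x, h3, fun ⟨s, h5, h6⟩ => h4 ⟨s, Or.inr h5, h6⟩⟩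

theorem legal_rep (hL : Line G e m) {S : Set V} {I : Multiset (ℕ × ℕ)} (h : RepI G e m S I) {v : V}
    (hv : Legal G S v) : ∃ j p r, I = p ::ₘ r ∧ v = e j ∧ j < m ∧ p.1 ≤ j + 1 ∧ j ≤ p.1 + p.2 ∧ 0 < p.2 := by
  obtain ⟨j, hj, rfl⟩ := (h.off v).resolve_right (not_not.2 hv)
  obtain ⟨x, h1, h2⟩ := hv
  obtain ⟨p, hp, i, h3, h4, rfl⟩ := (h.und x).1 h2
  have h5 := h.bd p hp
  obtain ⟨r, rfl⟩ := Multiset.exists_cons_of_mem hp
  rw [hL.adj _ (by omega) _ hj] at h1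
  exact ⟨j, p, r, rfl, rfl, hj, by omega, by omega, by omega⟩

def Rep (G : SimpleGraph V) (e : ℕ → V) (m : ℕ) (S : Set V) (s : Multiset ℕ) : Prop :=
  ∃ I, RepI G e m S I ∧ Bd m I ∧ s = I.map Prod.snd

theorem step_Rep (hL : Line G e m) {S : Set V} {p : ℕ × ℕ} {r : Multiset (ℕ × ℕ)} (h : RepI G e m S (p ::ₘ r))
    (hb : Bd m r) {j : ℕ} (hj : j < m) (h1 : p.1 ≤ j + 1) (h2 : j ≤ p.1 + p.2) (h0 : 0 < p.2) :
    Legal G S (e j) ∧ Rep G e m (insert (e j) S) ((j - 1 - p.1) ::ₘ (p.1 + p.2 - (j + 2)) ::ₘ r.map Prod.snd) := by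
  obtain ⟨h3, h4⟩ := step_rep hL h hj h1 h2 h0
  refine ⟨h3, _, h4, fun q hq => ?_, by simp⟩
  simp only [Multiset.mem_cons] at hq
  rcases hq with rfl | rfl | hq
  · dsimp only; omega
  · dsimp only; omega
  · exact hb q hq

theorem rep_L1 (hL : Line G e m) (S : Set V) (s : Multiset ℕ) (v : V) (h : Rep G e m S s) (hv : Legal G S v) :
    ∃ s', HM s s' ∧ Rep G e m (insert v S) s' := by
  obtain ⟨I, h1, h2, rfl⟩ := h
  obtain ⟨j, p, r, rfl, rfl, hj, h3, h4, h5⟩ := legal_rep hL h1 hv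
  refine ⟨_, ?_, (step_Rep hL h1 (fun q hq => h2 q (by simp [hq])) hj h3 h4 h5).2⟩
  by_cases h6 : j ≤ p.1
  · exact ⟨p.2, r.map Prod.snd, _, _, by simp, Multiset.cons_swap _ _ _, by unfold Mv; omega⟩
  · exact ⟨p.2, r.map Prod.snd, _, _, by simp, rfl, by unfold Mv; omega⟩

theorem rep_L2 (hL : Line G e m) (S : Set V) (s s' : Multiset ℕ) (h : Rep G e m S s) (hm : HM s s') :
    ∃ v, Legal G S v ∧ Rep G e m (insert v S) s' := by
  obtain ⟨I, h1, h2, rfl⟩ := h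
  obtain ⟨g, t, a, c, h3, rfl, hm⟩ := hm
  obtain ⟨p, hp, rfl, rfl⟩ := (Multiset.map_eq_cons _ _ _ _).2 h3
  obtain ⟨r, rfl⟩ := Multiset.exists_cons_of_mem hp
  rw [Multiset.erase_cons_head]
  have h4 := h1.bd p hp
  have h5 := h2 p hp
  have key : ∀ j < m, p.1 ≤ j + 1 → j ≤ p.1 + p.2 → 0 < p.2 →
      (a = j - 1 - p.1 ∧ c = p.1 + p.2 - (j + 2) ∨ c = j - 1 - p.1 ∧ a = p.1 + p.2 - (j + 2)) →
      ∃ v, Legal G S v ∧ Rep G e m (insert v S) (a ::ₘ c ::ₘ r.map Prod.snd) := by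
    intro j hj h6 h7 h8 h9
    have := step_Rep hL h1 (fun q hq => h2 q (by simp [hq])) hj h6 h7 h8
    rcases h9 with ⟨rfl, rfl⟩ | ⟨rfl, rfl⟩
    · exact ⟨_, this⟩
    · rw [Multiset.cons_swap]; exact ⟨_, this⟩
  rcases hm with ⟨rfl, h6 | h6⟩ | h6
  · by_cases h7 : 1 ≤ p.1
    · exact key (p.1 - 1) (by omega) (by omega) (by omega) (by omega) (by omega)
    · exact key (p.1 + p.2) (by omega) (by omega) (by omega) (by omega) (by omega)
  · exact key p.1 (by omega) (by omega) (by omega) (by omega) (by omega)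
  · exact key (p.1 + a + 1) (by omega) (by omega) (by omega) (by omega) (by omega)

end Pool.Agent.H.MP_56c280_lc
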