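import Mathlib

namespace Pool.Agent.H.MP_56c280_lc

def w (h : ℕ) : ℕ := if h < 4 then 2 * (h / 2) else 2 * (h / 2) - 4
def u (h : ℕ) : ℕ := if h < 8 then 0 else if h % 2 = 0 then 2 * h - 4 else 2 * h - 10

theorem w_spec (h : ℕ) : (h < 4 ∧ w h = 2 * (h / 2)) ∨ (4 ≤ h ∧ w h + 4 = 2 * (h / 2)) := by
  unfold w; split_ifs <;> omega

theorem u_spec (h : ℕ) : (h < 8 ∧ u h = 0) ∨ (8 ≤ h ∧ h % 2 = 0 ∧ u h + 4 = 2 * h) ∨
    (8 ≤ h ∧ h % 2 = 1 ∧ u h + 10 = 2 * h) := by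
  unfold u; split_ifs <;> omega

def Pf (t m σ : ℕ) : Prop :=
  (t = 0 ∧ σ % 2 = 1) ∨ (0 < t ∧ σ % 2 = 0 ∧ (t + 8 ≤ m ∧ t % 4 = 2 ∨ m < t + 8 ∧ t % 4 = 0 ∧ ¬ (t = 4 ∧ m = 8)))

def Mv (h a c : ℕ) : Prop := c = 0 ∧ (a + 1 = h ∨ a + 2 = h) ∨ a + c + 3 = h

/-- constraint on the rest of the position -/
def Ok (t m : ℕ) : Prop := t % 2 = 0 ∧ m % 4 = 0 ∧ (m = 0 ∨ 8 ≤ m ∧ m ≤ 2 * t + 4 ∧ 4 ≤ t)

theorem arith_a {h a c t m σ : ℕ} (ho : Ok t m) (hm : Mv h a c) (hp : Pf (w h + t) (max (u h) m) (h + σ)) :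
    ¬ Pf (w a + (w c + t)) (max (u a) (max (u c) m)) (a + (c + σ)) := by
  intro hq
  have h1 := w_spec h; have h2 := w_spec a; have h3 := w_spec c
  have h4 := u_spec h; have h5 := u_spec a; have h6 := u_spec c
  unfold Pf at hp hq
  unfold Mv at hm
  unfold Ok at ho
  generalize w h = wh at *
  generalize w a = wa at *
  generalize w c = wc at *
  generalize u h = uh at *
  generalize u a = ua at *
  generalize u c = uc at *
  rcases hm with ⟨rfl, rfl | rfl⟩ | rfl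
  · omega
  · omega
  · rcases h4 with h4 | h4 | h4 <;> rcases h5 with h5 | h5 | h5 <;> rcases h6 with h6 | h6 | h6 <;> omega

end Pool.Agent.H.MP_56c280_lc
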