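import Pool.Agent.H.MP_56c280_lc.Game
import Pool.Agent.Lib.lead.CXGraphRed

namespace Pool.Agent.H.MP_56c280_lc

open SimpleGraph Pool.Agent.Lib.CX

variable {V W : Type} {G : SimpleGraph V} {H : SimpleGraph W}

theorem inN_iso (φ : G ≃g H) (v x : V) : InN H (φ v) (φ x) ↔ InN G v x := by
  simp [InN, φ.map_adj_iff]

theorem legal_iso (φ : G ≃g H) (S : Set V) (v : V) : Legal H (φ '' S) (φ v) ↔ Legal G S v := by
  constructor
  · rintro ⟨x, h1, h2⟩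
    obtain ⟨x, rfl⟩ := φ.surjective x
    exact ⟨x, (inN_iso φ _ _).1 h1, fun ⟨s, h3, h4⟩ => h2 ⟨φ s, ⟨s, h3, rfl⟩, (inN_iso φ _ _).2 h4⟩⟩
  · rintro ⟨x, h1, h2⟩
    refine ⟨φ x, (inN_iso φ _ _).2 h1, ?_⟩
    rintro ⟨_, ⟨s, h3, rfl⟩, h4⟩
    exact h2 ⟨s, h3, (inN_iso φ _ _).1 h4⟩

theorem wins_iso (φ : G ≃g H) {S : Set V} (h : Wins G S) : Wins H (φ '' S) := by
  induction h with
  | stop S h =>
    refine Wins.stop _ fun v hv => ?_
    obtain ⟨v, rfl⟩ := φ.surjective v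
    exact h v ((legal_iso φ _ _).1 hv)
  | step S v hv h1 _ ih =>
    refine Wins.step _ (φ v) ((legal_iso φ _ _).2 hv) ?_ fun x hx => ?_
    · obtain ⟨x, hx⟩ := h1
      exact ⟨φ x, by rw [← Set.image_insert_eq]; exact (legal_iso φ _ _).2 hx⟩
    · obtain ⟨x, rfl⟩ := φ.surjective x
      rw [← Set.image_insert_eq] at hx ⊢
      rw [← Set.image_insert_eq]
      exact ih x ((legal_iso φ _ _).1 hx)

theorem wins_iso_iff (φ : G ≃g H) : Wins G ∅ ↔ Wins H ∅ :=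
  ⟨fun h => by simpa using wins_iso φ h, fun h => by simpa using wins_iso φ.symm h⟩

theorem isP_two (a c : ℕ) : IsP (a ::ₘ c ::ₘ 0) ↔ Pf (w a + w c) (max (u a) (u c)) (a + c) := by
  simp [IsP, T, M]

theorem path_arith (n : ℕ) (hn : 0 < n) :
    (∃ j < n, IsP ((j - 1) ::ₘ (n - (j + 2)) ::ₘ 0)) ↔ ¬ (n = 1 ∨ n = 5 ∨ n % 4 = 2) := by
  simp only [isP_two]
  constructor
  · rintro ⟨j, hj, h⟩ h1
    have h2 := w_spec (j - 1); have h3 := u_spec (j - 1)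
    have h4 := w_spec (n - (j + 2)); have h5 := u_spec (n - (j + 2))
    unfold Pf at h
    omega
  · intro h
    have key : ∀ j < n, (∀ wa ua wc uc, ((j - 1 < 4 ∧ wa = 2 * ((j - 1) / 2)) ∨ (4 ≤ j - 1 ∧ wa + 4 = 2 * ((j - 1) / 2))) →
      ((j - 1 < 8 ∧ ua = 0) ∨ (8 ≤ j - 1 ∧ (j - 1) % 2 = 0 ∧ ua + 4 = 2 * (j - 1)) ∨
      (8 ≤ j - 1 ∧ (j - 1) % 2 = 1 ∧ ua + 10 = 2 * (j - 1))) →
      ((n - (j + 2) < 4 ∧ wc = 2 * ((n - (j + 2)) / 2)) ∨ (4 ≤ n - (j + 2) ∧ wc + 4 = 2 * ((n - (j + 2)) / 2))) →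
      ((n - (j + 2) < 8 ∧ uc = 0) ∨ (8 ≤ n - (j + 2) ∧ (n - (j + 2)) % 2 = 0 ∧ uc + 4 = 2 * (n - (j + 2))) ∨
      (8 ≤ n - (j + 2) ∧ (n - (j + 2)) % 2 = 1 ∧ uc + 10 = 2 * (n - (j + 2)))) →
      Pf (wa + wc) (max ua uc) (j - 1 + (n - (j + 2)))) →
      ∃ j < n, Pf (w (j - 1) + w (n - (j + 2))) (max (u (j - 1)) (u (n - (j + 2)))) (j - 1 + (n - (j + 2))) :=
      fun j hj h => ⟨j, hj, h _ _ _ _ (w_spec _) (u_spec _) (w_spec _) (u_spec _)⟩
    by_cases h1 : n = 3 ∨ 12 ≤ n ∧ n % 4 = 0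
    · exact key 0 (by omega) fun _ _ _ _ _ _ _ _ => by unfold Pf; omega
    by_cases h2 : n = 4 ∨ n = 8 ∨ 12 ≤ n ∧ n % 4 = 1
    · exact key 1 (by omega) fun _ _ _ _ _ _ _ _ => by unfold Pf; omega
    by_cases h3 : n = 11
    · exact key 3 (by omega) fun _ _ _ _ _ _ _ _ => by unfold Pf; omega
    · exact key (n / 2) (by omega) fun _ _ _ _ _ _ _ _ => by unfold Pf; omega

theorem path_wins (n : ℕ) : Wins (pathGraph n) ∅ ↔ ¬ (n = 1 ∨ n = 5 ∨ n % 4 = 2) := by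
  rcases Nat.eq_zero_or_pos n with rfl | hn
  · exact ⟨fun _ => by omega, fun _ => Wins.stop _ fun v => v.elim0⟩
  let e : ℕ → Fin n := fun i => ⟨i % n, Nat.mod_lt _ hn⟩
  have he : ∀ x : Fin n, x = e x := fun x => Fin.ext (Nat.mod_eq_of_lt x.2).symm
  have hL : Line (pathGraph n) e n := ⟨fun i hi j hj => by
    simp only [InN, pathGraph_adj, e, Fin.ext_iff, Nat.mod_eq_of_lt hi, Nat.mod_eq_of_lt hj]; omega⟩
  have hR : RepI (pathGraph n) e n ∅ ((0, n) ::ₘ 0) := by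
    refine ⟨fun x => ?_, by simp, ?_, fun v => Or.inl ⟨v, v.2, he v⟩⟩
    · simp only [Set.mem_empty_iff_false, false_and, exists_false, not_false_eq_true, true_iff]
      exact ⟨(0, n), by simp, x, by simp, by simp, he x⟩
    · rw [sepd_cons]
      exact ⟨by simp, fun p r h => by simp [eq_comm] at h⟩
  have st : ∀ j < n, Legal (pathGraph n) ∅ (e j) ∧
      Rep (pathGraph n) e n (insert (e j) ∅) ((j - 1) ::ₘ (n - (j + 2)) ::ₘ 0) := fun j hj => by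
    simpa using step_Rep hL hR (by simp [Bd]) hj (by simp) (by simp; omega) hn
  rw [← path_arith n hn]
  constructor
  · intro h
    cases h with
    | stop _ h => exact absurd (st 0 hn).1 (h _)
    | step _ v hv h1 h2 =>
      refine ⟨v, v.2, isP_of_wins _ (rep_L1 hL) (rep_L2 hL) (st v v.2).2 ?_ ?_⟩
      · rw [← he v]; exact h1
      · rw [← he v]; exact h2
  · rintro ⟨j, hj, h⟩
    exact win_move _ (rep_L1 hL) (rep_L2 hL) (st j hj).1 (st j hj).2 h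

theorem mod2 {x n : ℕ} (h : x < 2 * n) : (x < n ∧ x % n = x) ∨ (n ≤ x ∧ x % n + n = x) := by
  by_cases h1 : x < n
  · exact Or.inl ⟨h1, Nat.mod_eq_of_lt h1⟩
  · refine Or.inr ⟨by omega, ?_⟩
    rw [Nat.mod_eq_sub_mod (by omega), Nat.mod_eq_of_lt (by omega)]; omega

theorem cyc_adj {n : ℕ} (hn : 3 ≤ n) (a b : Fin n) : (cycleGraph n).Adj a b ↔
    a.1 + 1 = b.1 ∨ b.1 + 1 = a.1 ∨ a.1 + 1 = b.1 + n ∨ b.1 + 1 = a.1 + n := by
  rw [cycleGraph_adj', Fin.sub_def, Fin.sub_def]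
  have h1 := mod2 (x := n - b.1 + a.1) (n := n) (by omega)
  have h2 := mod2 (x := n - a.1 + b.1) (n := n) (by omega)
  have := a.2; have := b.2
  dsimp only
  omega

theorem cyc_rep {n : ℕ} (hn : 3 ≤ n) (v : Fin n) : ∃ e, Line (cycleGraph n) e (n - 1) ∧
    Rep (cycleGraph n) e (n - 1) (insert v ∅) ((n - 3) ::ₘ 0) := by
  have hv := v.2
  let e : ℕ → Fin n := fun i => ⟨(v.1 + 1 + i) % n, Nat.mod_lt _ (by omega)⟩
  have und : ∀ x, (¬ ∃ s ∈ (insert v ∅ : Set (Fin n)), InN (cycleGraph n) s x) ↔ ¬ InN (cycleGraph n) v x := by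
    intro x; simp
  refine ⟨e, ⟨fun i hi j hj => ?_⟩, (1, n - 3) ::ₘ 0, ⟨fun x => ?_, ?_, ?_, fun x => ?_⟩, by simp [Bd], by simp⟩
  · have h1 := mod2 (x := v.1 + 1 + i) (n := n) (by omega)
    have h2 := mod2 (x := v.1 + 1 + j) (n := n) (by omega)
    simp only [InN, cyc_adj hn, e, Fin.ext_iff]
    omega
  · have hx := x.2
    rw [und]
    simp only [InN, cyc_adj hn, e, Fin.ext_iff, Multiset.mem_cons, Multiset.notMem_zero, or_false, exists_eq_left]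
    constructor
    · intro h
      refine ⟨if v.1 < x.1 then x.1 - v.1 - 1 else x.1 + n - v.1 - 1, ?_, ?_, ?_⟩
      · split_ifs <;> omega
      · split_ifs <;> omega
      · split_ifs with h1
        · have := mod2 (x := v.1 + 1 + (x.1 - v.1 - 1)) (n := n) (by omega); omega
        · have := mod2 (x := v.1 + 1 + (x.1 + n - v.1 - 1)) (n := n) (by omega); omega
    · rintro ⟨i, h1, h2, h3⟩
      have := mod2 (x := v.1 + 1 + i) (n := n) (by omega); omega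
  · simp; omega
  · rw [sepd_cons]
    exact ⟨by simp, fun p r h => by simp [eq_comm] at h⟩
  · have hx := x.2
    by_cases h : x = v
    · subst h
      exact Or.inr fun ⟨y, h1, h2⟩ => h2 ⟨x, by simp, h1⟩
    · have h' : x.1 ≠ v.1 := fun h1 => h (Fin.ext h1)
      refine Or.inl ⟨if v.1 < x.1 then x.1 - v.1 - 1 else x.1 + n - v.1 - 1, ?_, Fin.ext ?_⟩
      · split_ifs <;> omega
      · simp only [e]
        split_ifs with h1
        · have := mod2 (x := v.1 + 1 + (x.1 - v.1 - 1)) (n := n) (by omega); omega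
        · have := mod2 (x := v.1 + 1 + (x.1 + n - v.1 - 1)) (n := n) (by omega); omega

theorem cyc_wins {n : ℕ} (hn : 3 ≤ n) : Wins (cycleGraph n) ∅ ↔ n = 4 ∨ n = 8 ∨ 13 ≤ n ∧ n % 4 = 1 := by
  have ar : IsP ((n - 3) ::ₘ 0) ↔ n = 4 ∨ n = 8 ∨ 13 ≤ n ∧ n % 4 = 1 := by
    have : IsP ((n - 3) ::ₘ 0) ↔ Pf (w (n - 3)) (u (n - 3)) (n - 3) := by simp [IsP, T, M]
    rw [this]
    have h2 := w_spec (n - 3); have h3 := u_spec (n - 3)
    unfold Pf; omega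
  have lg : ∀ v, Legal (cycleGraph n) ∅ v := fun v => ⟨v, Or.inl rfl, by simp⟩
  rw [← ar]
  constructor
  · intro h
    cases h with
    | stop _ h => exact absurd (lg ⟨0, by omega⟩) (h _)
    | step _ v hv h1 h2 =>
      obtain ⟨e, hL, hR⟩ := cyc_rep hn v
      exact isP_of_wins _ (rep_L1 hL) (rep_L2 hL) hR h1 h2
  · intro h
    obtain ⟨e, hL, hR⟩ := cyc_rep hn ⟨0, by omega⟩
    exact win_move _ (rep_L1 hL) (rep_L2 hL) (lg _) hR h

/-- every vertex has two different neighbours -/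
def Two (G : SimpleGraph V) : Prop := ∀ v, ∃ x y, x ≠ y ∧ G.Adj v x ∧ G.Adj v y

theorem Two.iso (φ : G ≃g H) (h : Two G) : Two H := fun v => by
  obtain ⟨v, rfl⟩ := φ.surjective v
  obtain ⟨x, y, h1, h2, h3⟩ := h v
  exact ⟨φ x, φ y, φ.injective.ne h1, φ.map_adj_iff.2 h2, φ.map_adj_iff.2 h3⟩

theorem two_cyc {n : ℕ} (hn : 3 ≤ n) : Two (cycleGraph n) := fun v => by
  have := v.2
  refine ⟨⟨if v.1 + 1 < n then v.1 + 1 else 0, by split_ifs <;> omega⟩, ⟨if v.1 = 0 then n - 1 else v.1 - 1, by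
    split_ifs <;> omega⟩, ?_, ?_, ?_⟩
  · simp only [Ne, Fin.ext_iff]; split_ifs <;> omega
  · simp only [cyc_adj hn]; split_ifs <;> omega
  · simp only [cyc_adj hn]; split_ifs <;> omega

theorem not_two_path {n : ℕ} (hn : 0 < n) : ¬ Two (pathGraph n) := fun h => by
  obtain ⟨x, y, h1, h2, h3⟩ := h ⟨0, hn⟩
  simp only [Ne, Fin.ext_iff, pathGraph_adj] at *
  omega

def twoB (a : Gr) : Bool := (List.range a.n).all fun v => (List.range a.n).any fun x => (List.range a.n).any fun y =>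
  decide (x ≠ y) && (a.adjB v x && a.adjB v y)

theorem twoB_iff (a : Gr) : twoB a = true ↔ Two a.G := by
  simp only [twoB, List.all_eq_true, List.any_eq_true, List.mem_range, Bool.and_eq_true, decide_eq_true_eq]
  constructor
  · intro h v
    obtain ⟨x, hx, y, hy, h1, h2, h3⟩ := h v v.2
    exact ⟨⟨x, hx⟩, ⟨y, hy⟩, fun h => h1 (congrArg Fin.val h), (a.adjB_iff v ⟨x, hx⟩).1 h2, (a.adjB_iff v ⟨y, hy⟩).1 h3⟩
  · intro h v hv
    obtain ⟨x, y, h1, h2, h3⟩ := h ⟨v, hv⟩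
    exact ⟨x, x.2, y, y.2, fun h => h1 (Fin.ext h), (a.adjB_iff ⟨v, hv⟩ x).2 h2, (a.adjB_iff ⟨v, hv⟩ y).2 h3⟩

def ans (a : Gr) : Bool :=
  if twoB a && decide (0 < a.n) then decide (a.n = 4 ∨ a.n = 8 ∨ 13 ≤ a.n ∧ a.n % 4 = 1)
  else decide (¬ (a.n = 1 ∨ a.n = 5 ∨ a.n % 4 = 2))

theorem ans_pt : PT ans := by unfold ans twoB; fun_prop

theorem ans_iff {a : Gr} (h : PathOrCycle a) : Wins a.G ∅ ↔ ans a = true := by
  unfold ans
  rcases h with ⟨⟨φ⟩⟩ | ⟨hn, ⟨φ⟩⟩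
  · rw [wins_iso_iff φ, path_wins, if_neg, decide_eq_true_eq]
    simp only [Bool.and_eq_true, decide_eq_true_eq, twoB_iff]
    exact fun ⟨h1, h2⟩ => not_two_path h2 (h1.iso φ)
  · rw [wins_iso_iff φ, cyc_wins hn, if_pos, decide_eq_true_eq]
    simp only [Bool.and_eq_true, decide_eq_true_eq, twoB_iff]
    exact ⟨(two_cyc hn).iso φ.symm, by omega⟩

end Pool.Agent.H.MP_56c280_lc
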